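import Pool.Agent.H30.VX.Targets

/-!
# MP_d32443_co, board vex_modules, row EXT: cycles through a near-complete set and segments
-/

set_option autoImplicit false

namespace Pool.Agent.H35.VX

open Finset Pool.Agent.H48.CE Pool.Agent.H30.VR Pool.Agent.H30.VX

variable {V : Type}

/-- private neighbours -/
theorem priv (hGRD : T_GRD) {G : SimpleGraph V} {W L Z : Finset V} {b : ℕ}
    (hL : ∀ v ∈ L, b ≤ (nb G W v).card) (hZ : Z.card + 2 * L.card ≤ b) :
    ∃ f : V → Bool → V, (∀ v ∈ L, ∀ e, f v e ∈ W ∧ G.Adj v (f v e) ∧ f v e ∉ Z) ∧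
      ∀ v ∈ L, ∀ v' ∈ L, ∀ e e', f v e = f v' e' → v = v' ∧ e = e' := by
  classical
  obtain ⟨f, hf, hf2⟩ := hGRD (ι := {v // v ∈ L} × Bool) (fun i => nb G W i.1.1) Z (by
    rintro ⟨⟨v, hv⟩, e⟩
    have h1 := hL v hv
    rw [Fintype.card_prod, Fintype.card_coe, Fintype.card_bool]
    change Z.card + L.card * 2 ≤ (nb G W v).card
    omega)
  refine ⟨fun v e => if h : v ∈ L then f (⟨v, h⟩, e) else v, ?_, ?_⟩
  · intro v hv e
    have h1 := hf2 (⟨v, hv⟩, e)
    simp only [dif_pos hv]
    have h2 := mem_nb.1 h1.1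
    exact ⟨h2.1, h2.2, h1.2⟩
  · intro v hv v' hv' e e' h
    simp only [dif_pos hv, dif_pos hv'] at h
    have h1 := hf h
    rw [Prod.mk.injEq, Subtype.mk.injEq] at h1
    exact h1

/-- the segment with private neighbours -/
noncomputable def sg (L : Finset V) (f : V → Bool → V) (x y : V) (B : List V) : List V := by
  classical exact (if x ∈ L then [f x false] else []) ++ (B ++ (if y ∈ L then [f y true] else []))

theorem mem_sg {L : Finset V} {f : V → Bool → V} {x y : V} {B : List V} {v : V} :
    v ∈ sg L f x y B ↔ (x ∈ L ∧ v = f x false) ∨ v ∈ B ∨ (y ∈ L ∧ v = f y true) := by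
  classical
  unfold sg
  rw [List.mem_append, List.mem_append]
  by_cases hx : x ∈ L <;> by_cases hy : y ∈ L <;> simp [hx, hy]

theorem length_sg {L : Finset V} {f : V → Bool → V} {x y : V} {B : List V}
    [Decidable (x ∈ L)] [Decidable (y ∈ L)] :
    (sg L f x y B).length = B.length + (if x ∈ L then 1 else 0) + (if y ∈ L then 1 else 0) := by
  unfold sg
  rw [List.length_append, List.length_append]
  by_cases hx : x ∈ L <;> by_cases hy : y ∈ L <;> simp [hx, hy] <;> omega

theorem head_sg {L W : Finset V} {f : V → Bool → V} {x y : V} {B : List V}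
    (hB : B.head? = some x) (hx : x ∈ W ∨ x ∈ L) (hf : ∀ v ∈ L, ∀ e, f v e ∈ W) :
    ∃ z ∈ W, (sg L f x y B).head? = some z := by
  classical
  unfold sg
  by_cases h : x ∈ L
  · exact ⟨f x false, hf x h _, by rw [if_pos h]; rfl⟩
  · refine ⟨x, hx.resolve_right h, ?_⟩
    rw [if_neg h, List.nil_append]
    cases B with
    | nil => simp at hB
    | cons a B => simpa using hB

theorem last_sg {L W : Finset V} {f : V → Bool → V} {x y : V} {B : List V}
    (hB : B.getLast? = some y) (hy : y ∈ W ∨ y ∈ L) (hf : ∀ v ∈ L, ∀ e, f v e ∈ W) :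
    ∃ z ∈ W, (sg L f x y B).getLast? = some z := by
  classical
  unfold sg
  by_cases h : y ∈ L
  · refine ⟨f y true, hf y h _, ?_⟩
    rw [if_pos h, ← List.append_assoc, List.getLast?_append]
    simp
  · refine ⟨y, hy.resolve_right h, ?_⟩
    rw [if_neg h, List.append_nil, List.getLast?_append, hB]
    simp

theorem chain_sg {G : SimpleGraph V} {L : Finset V} {f : V → Bool → V} {x y : V} {B : List V}
    (hx : B.head? = some x) (hy : B.getLast? = some y) (hB : B.IsChain G.Adj)
    (hf : ∀ v ∈ L, ∀ e, G.Adj v (f v e)) : (sg L f x y B).IsChain G.Adj := by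
  classical
  unfold sg
  have h1 : (B ++ (if y ∈ L then [f y true] else [])).IsChain G.Adj := by
    by_cases h : y ∈ L
    · rw [if_pos h, List.isChain_append]
      refine ⟨hB, List.isChain_singleton _, ?_⟩
      intro a ha c hc
      rw [hy] at ha
      simp only [Option.mem_def, Option.some.injEq, List.head?_cons] at ha hc
      subst ha
      subst hc
      exact hf _ h _
    · rw [if_neg h, List.append_nil]
      exact hB
  by_cases h : x ∈ L
  · rw [if_pos h, List.isChain_append]
    refine ⟨List.isChain_singleton _, h1, ?_⟩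
    intro a ha c hc
    rw [List.head?_append, hx] at hc
    simp only [List.getLast?_singleton, Option.mem_def, Option.some.injEq, Option.some_or] at ha hc
    subst ha
    subst hc
    exact (hf _ h _).symm
  · rw [if_neg h, List.nil_append]
    exact h1

theorem nodup_sg {L : Finset V} {f : V → Bool → V} {x y : V} {B : List V} (hB : B.Nodup)
    (hfB : ∀ v ∈ L, ∀ e, f v e ∉ B)
    (hf : ∀ v ∈ L, ∀ v' ∈ L, ∀ e e', f v e = f v' e' → v = v' ∧ e = e') :
    (sg L f x y B).Nodup := by
  classical
  unfold sg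
  have h1 : (B ++ (if y ∈ L then [f y true] else [])).Nodup := by
    by_cases h : y ∈ L
    · rw [if_pos h, List.nodup_append]
      refine ⟨hB, List.nodup_singleton _, ?_⟩
      intro a ha c hc hac
      rw [List.mem_singleton] at hc
      rw [hac, hc] at ha
      exact hfB y h _ ha
    · rw [if_neg h, List.append_nil]
      exact hB
  by_cases h : x ∈ L
  · rw [if_pos h, List.nodup_append]
    refine ⟨List.nodup_singleton _, h1, ?_⟩
    intro a ha c hc hac
    rw [List.mem_singleton] at ha
    rw [← hac, ha, List.mem_append] at hc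
    rcases hc with hc | hc
    · exact hfB x h _ hc
    · by_cases h' : y ∈ L
      · rw [if_pos h', List.mem_singleton] at hc
        have := (hf x h y h' _ _ hc).2
        simp at this
      · rw [if_neg h'] at hc
        simp at hc
  · rw [if_neg h, List.nil_append]
    exact h1

open scoped Classical in
/-- the core: a general system of segments -/
theorem core (hNCS : T_NCS) (hGRD : T_GRD) {G : SimpleGraph V} {W L Z R : Finset V} {μ b N : ℕ}
    {J : Type} [Fintype J] (B : J → List V) (hx hy : J → V) (hNC : NC G μ W)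
    (hL : ∀ v ∈ L, v ∉ W ∧ b ≤ (nb G W v).card)
    (hB : ∀ j, (B j).Nodup ∧ (B j).IsChain G.Adj ∧ (B j).head? = some (hx j) ∧
      (B j).getLast? = some (hy j))
    (hdis : ∀ i j, i ≠ j → ∀ v ∈ B i, v ∉ B j)
    (hint : ∀ j, ∀ v ∈ B j, v = hx j ∨ v = hy j ∨ v ∉ W)
    (hxW : ∀ j, hx j ∈ W ∨ hx j ∈ L) (hyW : ∀ j, hy j ∈ W ∨ hy j ∈ L)
    (hlen : ∀ j, 2 ≤ (B j).length ∨ hx j ∈ L ∧ hy j ∈ L ∧ (B j).length = 1)
    (hZx : ∀ j, hx j ∈ W → hx j ∈ Z) (hZy : ∀ j, hy j ∈ W → hy j ∈ Z)
    (hZ : Z.card + 2 * L.card ≤ b)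
    (hU : 4 * μ + 8 + 2 * Fintype.card J + (Z.card + 2 * L.card) ≤ W.card)
    (hJ : 1 ≤ Fintype.card J) (hR : ∀ v ∈ R, v ∉ W ∧ ∃ j, v ∈ B j)
    (hN2 : N ≤ W.card + R.card)
    (hN1 : ∑ j, ((B j).length + (if hx j ∈ L then 1 else 0) + (if hy j ∈ L then 1 else 0)) +
      Fintype.card J ≤ N) : Cy G N := by
  obtain ⟨f, hf, hfi⟩ := priv hGRD (fun v hv => (hL v hv).2) hZ
  have hfB : ∀ j, ∀ v ∈ L, ∀ e, f v e ∉ B j := by
    intro j v hv e hmem
    obtain ⟨h1, -, h3⟩ := hf v hv e
    rcases hint j _ hmem with h | h | h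
    · rw [h] at h1 h3
      exact h3 (hZx j h1)
    · rw [h] at h1 h3
      exact h3 (hZy j h1)
    · exact h h1
  let S : J → List V := fun j => sg L f (hx j) (hy j) (B j)
  have hlenS : ∀ j, (S j).length =
      (B j).length + (if hx j ∈ L then 1 else 0) + (if hy j ∈ L then 1 else 0) :=
    fun j => length_sg
  have hxB : ∀ j, hx j ∈ B j := fun j => List.mem_of_head? (hB j).2.2.1
  have hyB : ∀ j, hy j ∈ B j := fun j => List.mem_of_getLast? (hB j).2.2.2
  have hdisS : ∀ i j, i ≠ j → ∀ v ∈ S i, v ∉ S j := by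
    intro i j hij v hv hv'
    rw [mem_sg] at hv hv'
    rcases hv with ⟨h1, h2⟩ | h1 | ⟨h1, h2⟩ <;> rcases hv' with ⟨h3, h4⟩ | h3 | ⟨h3, h4⟩
    · have h5 := (hfi _ h1 _ h3 _ _ (h2.symm.trans h4)).1
      exact hdis i j hij _ (hxB i) (h5 ▸ hxB j)
    · exact hfB j _ h1 _ (h2 ▸ h3)
    · have h5 := (hfi _ h1 _ h3 _ _ (h2.symm.trans h4)).1
      exact hdis i j hij _ (hxB i) (h5 ▸ hyB j)
    · exact hfB i _ h3 _ (h4 ▸ h1)
    · exact hdis i j hij _ h1 h3
    · exact hfB i _ h3 _ (h4 ▸ h1)
    · have h5 := (hfi _ h1 _ h3 _ _ (h2.symm.trans h4)).1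
      exact hdis i j hij _ (hyB i) (h5 ▸ hxB j)
    · exact hfB j _ h1 _ (h2 ▸ h3)
    · have h5 := (hfi _ h1 _ h3 _ _ (h2.symm.trans h4)).1
      exact hdis i j hij _ (hyB i) (h5 ▸ hyB j)
  let U : Finset V := W.filter fun w => ∀ j, w ∉ S j
  have hUcard : W.card ≤ U.card + (Z.card + 2 * L.card) := by
    have h1 : W ⊆ U ∪ (Z ∪ (L ×ˢ (univ : Finset Bool)).image fun q => f q.1 q.2) := by
      intro w hw
      rw [mem_union]
      by_cases h : ∀ j, w ∉ S j
      · exact Or.inl (mem_filter.2 ⟨hw, h⟩)
      · right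
        push Not at h
        obtain ⟨j, hj⟩ := h
        rw [mem_sg] at hj
        rw [mem_union, mem_image]
        rcases hj with ⟨h1, h2⟩ | h1 | ⟨h1, h2⟩
        · exact Or.inr ⟨(hx j, false), mem_product.2 ⟨h1, mem_univ _⟩, h2.symm⟩
        · left
          rcases hint j w h1 with h | h | h
          · rw [h] at hw ⊢
            exact hZx j hw
          · rw [h] at hw ⊢
            exact hZy j hw
          · exact absurd hw h
        · exact Or.inr ⟨(hy j, true), mem_product.2 ⟨h1, mem_univ _⟩, h2.symm⟩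
    have h2 := (card_le_card h1).trans (card_union_le _ _)
    have h3 := card_union_le Z ((L ×ˢ (univ : Finset Bool)).image fun q => f q.1 q.2)
    have h4 : ((L ×ˢ (univ : Finset Bool)).image fun q => f q.1 q.2).card ≤ L.card * 2 := by
      refine card_image_le.trans ?_
      rw [card_product, card_univ, Fintype.card_bool]
    omega
  have hcov : W.card + R.card ≤ ∑ j, (S j).length + U.card := by
    have h1 : (W ∪ R) ⊆ (univ.biUnion fun j => (S j).toFinset) ∪ U := by
      intro w hw
      rw [mem_union, mem_biUnion]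
      rw [mem_union] at hw
      rcases hw with hw | hw
      · by_cases h : ∀ j, w ∉ S j
        · exact Or.inr (mem_filter.2 ⟨hw, h⟩)
        · push Not at h
          obtain ⟨j, hj⟩ := h
          exact Or.inl ⟨j, mem_univ _, List.mem_toFinset.2 hj⟩
      · obtain ⟨-, j, hj⟩ := hR w hw
        exact Or.inl ⟨j, mem_univ _, List.mem_toFinset.2 (mem_sg.2 (Or.inr (Or.inl hj)))⟩
    have h2 : (W ∪ R).card = W.card + R.card := by
      apply card_union_of_disjoint
      rw [disjoint_left]
      intro v hv hv'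
      exact (hR v hv').1 hv
    rw [← h2]
    refine (card_le_card h1).trans ((card_union_le _ _).trans (Nat.add_le_add_right ?_ _))
    exact card_biUnion_le.trans (sum_le_sum fun j _ => List.toFinset_card_le _)
  have hsum : ∑ j, (S j).length + Fintype.card J ≤ N := by
    rw [sum_congr rfl fun j _ => hlenS j]
    exact hN1
  let e : Fin (Fintype.card J) ≃ J := (Fintype.equivFin J).symm
  have h := hNCS G W U μ (Fintype.card J) (fun i => S (e i)) hNC (filter_subset _ _) hJ
    (by
      intro i
      obtain ⟨h1, h2, h3, h4⟩ := hB (e i)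
      refine ⟨?_, nodup_sg h1 (hfB (e i)) hfi, chain_sg h3 h4 h2 fun v hv e => (hf v hv e).2.1,
        head_sg h3 (hxW _) fun v hv e => (hf v hv e).1,
        last_sg h4 (hyW _) fun v hv e => (hf v hv e).1⟩
      change 2 ≤ (S (e i)).length
      rw [hlenS]
      rcases hlen (e i) with h5 | ⟨h5, h6, h7⟩
      · omega
      · rw [if_pos h5, if_pos h6]
        omega)
    (fun i j hij v hv => hdisS _ _ (fun h => hij (e.injective h)) v hv)
    (fun i v hv hvU => (mem_filter.1 hvU).2 _ hv)
    (by omega) (N - ∑ j, (S j).length) (by omega) (by omega)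
  have h5 : ∑ i, (S (e i)).length = ∑ j, (S j).length := Equiv.sum_comp e fun j => (S j).length
  rw [h5] at h
  have h6 : ∑ j, (S j).length + (N - ∑ j, (S j).length) = N := by omega
  rwa [h6] at h

theorem pf_EXT (hNCC : T_NCC) (hNCS : T_NCS) (hGRD : T_GRD) : T_EXT := by
  classical
  intro V G W L μ b p x y l hNC hL hseg hdis hb hW hsum N hN3 hN
  by_cases hNW : N ≤ W.card
  · exact hNCC G W μ hNC (by omega) N hN3 hNW
  push Not at hNW
  have hxm : ∀ i, x i ∈ x i :: (l i ++ [y i]) := fun i => by simp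
  have hym : ∀ i, y i ∈ x i :: (l i ++ [y i]) := fun i => by simp
  have hxinj : Function.Injective x := by
    intro i j h
    by_contra hij
    exact hdis i j hij (x i) (hxm i) (h ▸ hxm j)
  have hyinj : Function.Injective y := by
    intro i j h
    by_contra hij
    exact hdis i j hij (y i) (hym i) (h ▸ hym j)
  have hlnd : ∀ i, (l i).Nodup := by
    intro i
    have h1 := (hseg i).2.2.1.1
    rw [List.nodup_cons, List.nodup_append] at h1
    exact h1.2.1
  set E : Finset V := L.filter fun v => ∀ i, v ≠ x i ∧ v ≠ y i with hE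
  have hEL : E ⊆ L := filter_subset _ _
  -- counting
  have hcx : (∑ i, if x i ∈ L then 1 else 0) + E.card ≤ L.card := by
    rw [← card_filter, ← card_image_of_injective _ hxinj, ← card_union_of_disjoint]
    · apply card_le_card
      intro v hv
      rw [mem_union, mem_image] at hv
      rcases hv with ⟨i, hi, rfl⟩ | hv
      · exact (mem_filter.1 hi).2
      · exact hEL hv
    · rw [disjoint_left]
      intro v hv hv'
      rw [mem_image] at hv
      obtain ⟨i, -, rfl⟩ := hv
      exact ((mem_filter.1 hv').2 i).1 rfl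
  have hcy : (∑ i, if y i ∈ L then 1 else 0) + E.card ≤ L.card := by
    rw [← card_filter, ← card_image_of_injective _ hyinj, ← card_union_of_disjoint]
    · apply card_le_card
      intro v hv
      rw [mem_union, mem_image] at hv
      rcases hv with ⟨i, hi, rfl⟩ | hv
      · exact (mem_filter.1 hi).2
      · exact hEL hv
    · rw [disjoint_left]
      intro v hv hv'
      rw [mem_image] at hv
      obtain ⟨i, -, rfl⟩ := hv
      exact ((mem_filter.1 hv').2 i).2 rfl
  have hcE : L.card ≤ E.card + 2 * p := by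
    have h1 : L ⊆ E ∪ (univ.image x ∪ univ.image y) := by
      intro v hv
      rw [mem_union, mem_union, mem_image, mem_image]
      by_cases h : ∀ i, v ≠ x i ∧ v ≠ y i
      · exact Or.inl (mem_filter.2 ⟨hv, h⟩)
      · right
        push Not at h
        obtain ⟨i, hi⟩ := h
        by_cases h2 : v = x i
        · exact Or.inl ⟨i, mem_univ _, h2.symm⟩
        · exact Or.inr ⟨i, mem_univ _, (hi h2).symm⟩
    have h2 := (card_le_card h1).trans (card_union_le _ _)
    have h3 := card_union_le (univ.image x) (univ.image y)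
    have h4 : (univ.image x).card ≤ p := card_image_le.trans (by simp)
    have h5 : (univ.image y).card ≤ p := card_image_le.trans (by simp)
    omega
  set Z : Finset V := (univ.image x ∪ univ.image y).filter fun v => v ∈ W with hZdef
  have hZcard : Z.card ≤ 2 * p := by
    have h3 := card_union_le (univ.image x) (univ.image y)
    have h4 : (univ.image x).card ≤ p := card_image_le.trans (by simp)
    have h5 : (univ.image y).card ≤ p := card_image_le.trans (by simp)
    rw [hZdef]
    refine (card_filter_le _ _).trans ?_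
    omega
  set I : Finset V := univ.biUnion fun i => (l i).toFinset with hI
  have hIcard : I.card = ∑ i, (l i).length := by
    rw [hI, card_biUnion]
    · exact sum_congr rfl fun i _ => List.toFinset_card_of_nodup (hlnd i)
    · intro i _ j _ hij
      change Disjoint _ _
      rw [disjoint_left]
      intro v hv hv'
      rw [List.mem_toFinset] at hv hv'
      exact hdis i j hij v (by simp [hv]) (by simp [hv'])
  have hIm : ∀ v ∈ I, v ∉ W ∧ v ∉ L ∧ ∃ i, v ∈ l i := by
    intro v hv
    rw [hI, mem_biUnion] at hv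
    obtain ⟨i, -, hi⟩ := hv
    rw [List.mem_toFinset] at hi
    obtain ⟨h1, h2⟩ := (hseg i).2.2.2 v hi
    exact ⟨h1, h2, i, hi⟩
  have hRcard : (L ∪ I).card = L.card + I.card := by
    apply card_union_of_disjoint
    rw [disjoint_left]
    intro v hv hv'
    exact (hIm v hv').2.1 hv
  let B : Fin p ⊕ {v // v ∈ E} → List V :=
    Sum.elim (fun i => x i :: (l i ++ [y i])) fun v => [v.1]
  let hx : Fin p ⊕ {v // v ∈ E} → V := Sum.elim x fun v => v.1
  let hy : Fin p ⊕ {v // v ∈ E} → V := Sum.elim y fun v => v.1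
  have hcardJ : Fintype.card (Fin p ⊕ {v // v ∈ E}) = p + E.card := by
    rw [Fintype.card_sum, Fintype.card_fin, Fintype.card_coe]
  have hcEL := card_le_card hEL
  refine core hNCS hGRD (Z := Z) (R := L ∪ I) (b := b) B hx hy hNC hL ?_ ?_ ?_ ?_ ?_ ?_ ?_ ?_ ?_ ?_
    ?_ ?_ ?_ ?_
  · rintro (i | v)
    · obtain ⟨h1, h2⟩ := (hseg i).2.2.1
      refine ⟨h1, h2, rfl, ?_⟩
      change (x i :: (l i ++ [y i])).getLast? = some (y i)
      rw [← List.cons_append, List.getLast?_append]
      simp
    · exact ⟨List.nodup_singleton _, List.isChain_singleton _, rfl, rfl⟩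
  · rintro (i | v) (j | w) hij u hu hu'
    · exact hdis i j (fun h => hij (by rw [h])) u hu hu'
    · have h1 : u = w.1 := List.mem_singleton.1 hu'
      have hw := mem_filter.1 w.2
      have h2 : u ∈ x i :: (l i ++ [y i]) := hu
      rw [List.mem_cons, List.mem_append, List.mem_singleton, h1] at h2
      rcases h2 with h2 | h2 | h2
      · exact (hw.2 i).1 h2
      · exact ((hseg i).2.2.2 _ h2).2 hw.1
      · exact (hw.2 i).2 h2
    · have h1 : u = v.1 := List.mem_singleton.1 hu
      have hw := mem_filter.1 v.2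
      have h2 : u ∈ x j :: (l j ++ [y j]) := hu'
      rw [List.mem_cons, List.mem_append, List.mem_singleton, h1] at h2
      rcases h2 with h2 | h2 | h2
      · exact (hw.2 j).1 h2
      · exact ((hseg j).2.2.2 _ h2).2 hw.1
      · exact (hw.2 j).2 h2
    · have h1 : u = v.1 := List.mem_singleton.1 hu
      have h2 : u = w.1 := List.mem_singleton.1 hu'
      exact hij (by rw [Subtype.ext (h1.symm.trans h2)])
  · rintro (i | v) u hu
    · have h2 : u ∈ x i :: (l i ++ [y i]) := hu
      rw [List.mem_cons, List.mem_append, List.mem_singleton] at h2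
      rcases h2 with h2 | h2 | h2
      · exact Or.inl h2
      · exact Or.inr (Or.inr ((hseg i).2.2.2 _ h2).1)
      · exact Or.inr (Or.inl h2)
    · exact Or.inl (List.mem_singleton.1 hu)
  · rintro (i | v)
    · exact (hseg i).1
    · exact Or.inr (hEL v.2)
  · rintro (i | v)
    · exact (hseg i).2.1
    · exact Or.inr (hEL v.2)
  · rintro (i | v)
    · left
      change 2 ≤ (x i :: (l i ++ [y i])).length
      simp
    · exact Or.inr ⟨hEL v.2, hEL v.2, rfl⟩
  · rintro (i | v) h
    · exact mem_filter.2 ⟨mem_union_left _ (mem_image_of_mem _ (mem_univ _)), h⟩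
    · exact absurd h (hL _ (hEL v.2)).1
  · rintro (i | v) h
    · exact mem_filter.2 ⟨mem_union_right _ (mem_image_of_mem _ (mem_univ _)), h⟩
    · exact absurd h (hL _ (hEL v.2)).1
  · omega
  · rw [hcardJ]
    omega
  · rw [hcardJ]
    by_contra hcon
    have hp0 : p = 0 := by omega
    have hL0 : L.card = 0 := by omega
    subst hp0
    rw [univ_eq_empty, sum_empty] at hN
    omega
  · intro v hv
    rw [mem_union] at hv
    rcases hv with hv | hv
    · refine ⟨(hL v hv).1, ?_⟩
      by_cases h : ∀ i, v ≠ x i ∧ v ≠ y i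
      · exact ⟨Sum.inr ⟨v, mem_filter.2 ⟨hv, h⟩⟩, List.mem_singleton.2 rfl⟩
      · push Not at h
        obtain ⟨i, hi⟩ := h
        refine ⟨Sum.inl i, ?_⟩
        change v ∈ x i :: (l i ++ [y i])
        by_cases h2 : v = x i
        · rw [h2]; exact hxm i
        · rw [hi h2]; exact hym i
    · obtain ⟨h1, -, i, hi⟩ := hIm v hv
      refine ⟨h1, Sum.inl i, ?_⟩
      change v ∈ x i :: (l i ++ [y i])
      simp [hi]
  · rw [hRcard, hIcard]
    omega
  · rw [hcardJ, Fintype.sum_sum_type]
    have h1 : ∑ i : Fin p, ((B (Sum.inl i)).length + (if hx (Sum.inl i) ∈ L then 1 else 0) +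
        (if hy (Sum.inl i) ∈ L then 1 else 0)) =
        ∑ i, (l i).length + 2 * p + (∑ i, if x i ∈ L then 1 else 0) +
        (∑ i, if y i ∈ L then 1 else 0) := by
      rw [sum_add_distrib, sum_add_distrib]
      have h2 : ∑ i : Fin p, (B (Sum.inl i)).length = ∑ i, (l i).length + 2 * p := by
        have h3 : ∀ i : Fin p, (B (Sum.inl i)).length = (l i).length + 2 := by
          intro i
          change (x i :: (l i ++ [y i])).length = _
          simp
        rw [sum_congr rfl fun i _ => h3 i, sum_add_distrib, sum_const, card_univ, Fintype.card_fin,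
          smul_eq_mul]
        omega
      rw [h2]
      rfl
    have h2 : ∑ v : {v // v ∈ E}, ((B (Sum.inr v)).length +
        (if hx (Sum.inr v) ∈ L then 1 else 0) + (if hy (Sum.inr v) ∈ L then 1 else 0)) =
        3 * E.card := by
      have h3 : ∀ v : {v // v ∈ E}, ((B (Sum.inr v)).length +
          (if hx (Sum.inr v) ∈ L then 1 else 0) + (if hy (Sum.inr v) ∈ L then 1 else 0)) = 3 := by
        intro v
        have h4 : hx (Sum.inr v) ∈ L := hEL v.2
        have h5 : hy (Sum.inr v) ∈ L := hEL v.2
        rw [if_pos h4, if_pos h5]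
        rfl
      rw [sum_congr rfl fun v _ => h3 v, sum_const, card_univ, Fintype.card_coe, smul_eq_mul,
        mul_comm]
    rw [h1, h2]
    omega

end Pool.Agent.H35.VX
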